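import Pool.Agent.W759.TR.Defs
import Pool.Agent.Helper73.Cayley

set_option autoImplicit false

namespace Pool.Agent.W140.TR.Tree

open Pool.Agent.W759.TR

theorem G4_eq : G4 = Pool.Agent.Helper73.Cay := by
  ext g h
  constructor
  · rintro ⟨_, s, hs⟩
    exact ⟨s, hs⟩
  · rintro ⟨s, hs⟩
    refine ⟨?_, s, hs⟩
    rintro rfl
    exact Pool.Agent.Helper73.gen_ne_one s (mul_eq_left.mp hs.symm)

theorem t1 : T1 := by
  unfold T1
  rw [G4_eq]
  exact ⟨Pool.Agent.Helper73.cay_tree, fun v => Pool.Agent.Helper73.cay_card v⟩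

end Pool.Agent.W140.TR.Tree
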